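import Pool.Agent.Lib.MP_15d263_co.Existence

/-! Every `T(x,y)` admits an idiomeric tiling when tiles may be placed anywhere in the plane. -/

namespace Pool.Agent.Results.MP_15d263_co.ArbitraryPosition

open Pool.Agent.Lib.MP_15d263_co

lemma exists_of_snd_ne_zero {x y : ℤ} (hx : Even x) (hy : y ≠ 0) :
    IsIdiomeric (twoSquareTile x y) (lat (1 / y) x y) := by
  have hy' : (y : ℝ) ≠ 0 := by exact_mod_cast hy
  apply lat_isIdiomeric (o := x - 1)
  · push_cast
    field_simp
  · exact hx.sub_odd odd_one

/-- Every `T(x,y)` with `max(|x|,|y|) ≥ 2` admits an idiomeric tiling of the plane. -/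
theorem result (x y : ℤ) (h : 2 ≤ max |x| |y|) :
    ∃ F : Set (Set Plane), IsIdiomeric (twoSquareTile x y) F := by
  rcases Int.even_or_odd x with hx | hx
  · rcases Int.even_or_odd y with hy | hy
    · by_cases hy0 : y = 0
      · have hx0 : x ≠ 0 := by
          rintro rfl
          subst hy0
          simp at h
        exact ⟨_, (exists_of_snd_ne_zero hy hx0).swap⟩
      · exact ⟨_, exists_of_snd_ne_zero hx hy0⟩
    · exact ⟨_, (lat_isIdiomeric (c := 0) (X := y) (Y := x) (o := y) (by simp) hy).swap⟩
  · exact ⟨_, lat_isIdiomeric (c := 0) (X := x) (Y := y) (o := x) (by simp) hx⟩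

end Pool.Agent.Results.MP_15d263_co.ArbitraryPosition
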