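import Pool.Agent.Lib.MP_15d263_co.Nonexistence

/-! Idiomeric tilings by `T(x,y)` whose tiles are unions of squares of the regular tiling. -/

namespace Pool.Agent.Results.MP_15d263_co.GridAligned

open Pool.Agent.Lib.MP_15d263_co

lemma aligned_lat (X Y : ℤ) : IsGridAligned (lat 0 X Y) := by
  rintro _ ⟨q, rfl⟩
  refine ⟨2 * q.1, q.2, 2 * q.1 + X, q.2 + Y, ?_⟩
  unfold tl
  push_cast
  simp

/-- `T(x,y)` admits an idiomeric tiling made of squares of the regular tiling if and only if
at least one of `x`, `y` is odd. -/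
theorem result (x y : ℤ) (h : 2 ≤ max |x| |y|) :
    (∃ F : Set (Set Plane), IsIdiomeric (twoSquareTile x y) F ∧ IsGridAligned F) ↔
      (Odd x ∨ Odd y) := by
  constructor
  · rintro ⟨F, hF, hG⟩
    by_contra hodd
    push Not at hodd
    rw [Int.not_odd_iff_even, Int.not_odd_iff_even] at hodd
    exact not_good hodd.1 hodd.2 F ⟨h, hF, hG⟩
  · rintro (hx | hy)
    · exact ⟨lat 0 x y, lat_isIdiomeric (o := x) (by simp) hx, aligned_lat x y⟩
    · exact ⟨lat 0 y x, (lat_isIdiomeric (o := y) (by simp) hy).swap, aligned_lat y x⟩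

end Pool.Agent.Results.MP_15d263_co.GridAligned
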